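import Mathlib

set_option autoImplicit false

namespace Pool.Agent.Results.MP_3923f3_nt.LowerBound

/-- Admissible quadruples, as in the problem file. -/
def Admissible (a b c d : ℤ) : Prop :=
  a ≠ 0 ∧ b ≠ 0 ∧ c ≠ 0 ∧ ¬ (0 < a ∧ 0 < b ∧ 0 < c) ∧ ¬ (a < 0 ∧ b < 0 ∧ c < 0) ∧
    Even (a + b + c - d) ∧
    Nat.gcd (Int.gcd a b) c.natAbs = 1 ∧ Nat.gcd (Int.gcd d a) b.natAbs = 1 ∧
    Nat.gcd (Int.gcd d a) c.natAbs = 1 ∧ Nat.gcd (Int.gcd d b) c.natAbs = 1

/-- Good exponents, as in the problem file. -/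
def Good (μ : ℝ) : Prop :=
  ∀ a b c d : ℤ, Admissible a b c d →
    ∃ p q r : ℕ, p.Prime ∧ q.Prime ∧ r.Prime ∧ a * p + b * q + c * r = d ∧
      ((max p (max q r) : ℕ) : ℝ) ≤
        3 * |(d : ℝ)| + (max 3 (max |(a : ℝ)| (max |(b : ℝ)| |(c : ℝ)|))) ^ μ

/-- Baker's constant: the infimum of the good exponents, taken in the extended reals. -/
noncomputable def bakerConstant : EReal :=
  sInf ((fun μ : ℝ => (μ : EReal)) '' {μ : ℝ | Good μ})

theorem good_ge (μ : ℝ) (h : Good μ) : Real.log 13 / Real.log 3 ≤ μ := by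
  have hadm : Admissible 3 2 (-1) 0 := by
    refine ⟨by norm_num, by norm_num, by norm_num, by norm_num, by norm_num, by decide,
      by decide, by decide, by decide, by decide⟩
  obtain ⟨p, q, r, hp, hq, hr, heq, hle⟩ := h 3 2 (-1) 0 hadm
  have hp2 := hp.two_le
  have hq2 := hq.two_le
  have hr' : r = 3 * p + 2 * q := by omega
  have h13 : 13 ≤ r := by
    by_contra hlt
    have h1 : r = 10 ∨ r = 11 ∨ r = 12 := by omega
    rcases h1 with h1 | h1 | h1
    · rw [h1] at hr; exact absurd hr (by norm_num)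
    · omega
    · rw [h1] at hr; exact absurd hr (by norm_num)
  have hmax : (max (3 : ℝ) (max |((3 : ℤ) : ℝ)| (max |((2 : ℤ) : ℝ)| |((-1 : ℤ) : ℝ)|))) = 3 := by
    norm_num
  rw [hmax] at hle
  have h13' : (13 : ℝ) ≤ ((max p (max q r) : ℕ) : ℝ) := by
    have : 13 ≤ max p (max q r) := le_trans h13 (le_trans (le_max_right _ _) (le_max_right _ _))
    exact_mod_cast this
  have h3 : (13 : ℝ) ≤ (3 : ℝ) ^ μ := by
    have : ((3 : ℝ) * |((0 : ℤ) : ℝ)|) = 0 := by simp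
    linarith
  have hl3 : 0 < Real.log 3 := Real.log_pos (by norm_num)
  rw [div_le_iff₀ hl3]
  have := Real.log_le_log (by norm_num) h3
  rwa [Real.log_rpow (by norm_num)] at this

theorem result :
    ((Real.log 13 / Real.log 3 : ℝ) : EReal) ≤ bakerConstant := by
  refine le_sInf ?_
  rintro _ ⟨μ, hμ, rfl⟩
  exact EReal.coe_le_coe_iff.mpr (good_ge μ hμ)

end Pool.Agent.Results.MP_3923f3_nt.LowerBound
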